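import Pool.Agent.H752Z.Gross.G

namespace Pool.Agent.Results.MP_1c9ad1_nt.ALinearBound

open scoped Quaternion
open Pool.Agent.H752Z.Gross

/-- Chevyrev–Galbraith: `n₀(O, O') ≤ 2p` for all non-conjugate maximal orders of `B_p`. -/
theorem result (p : ℕ) (hp : p.Prime) (a b : ℚ) (hR : RamifiedExactly p a b)
    (O O' : Subring ℍ[ℚ,a,b]) (hO : IsMaximalOrder O) (hO' : IsMaximalOrder O')
    (hne : ¬ Conjugate O O') :
    ∃ n₀ : ℕ, IsLeast (signChangeBounds O O') n₀ ∧ n₀ ≤ 2 * p :=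
  main hp hR hO hO' hne

end Pool.Agent.Results.MP_1c9ad1_nt.ALinearBound
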